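import Mathlib

namespace Pool.Agent.Results.MP_814ec7_co.UniqueSteering

/-- `s` is a steering word of the infinite word `x`: the positions `n` with `s n = true` and those
with `s n = false` are both infinite in number, and reading `x` along either of these two sets of
positions, in increasing order, gives `x` back. -/
def IsSteering {A : Type*} (x : ℕ → A) (s : ℕ → Bool) : Prop :=
  {n | s n = true}.Infinite ∧ {n | s n = false}.Infinite ∧
    (∀ k, x (Nat.nth (fun n => s n = true) k) = x k) ∧
    (∀ k, x (Nat.nth (fun n => s n = false) k) = x k)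

/-- The first 46 letters of the word. -/
def tbl : List (Fin 9) :=
  [0,1,2,3,2,4,5,6,7,8,0,1,0,2,3,1,2,4,5,6,7,0,2,8,3,1,0,2,4,5,1,0,2,3,6,1,7,2,4,0,5,6,
    2, 7, 8, 0]

/-- The word. -/
def x (n : ℕ) : Fin 9 :=
  if n < 42 then tbl.getD n 0 else if n % 2 = 0 then x (n / 2 + 1) else x ((n - 3) / 2)
termination_by n
decreasing_by all_goals omega

/-- The first 42 letters of the steering word. -/
def stbl : List Bool :=
  [true, true, true, true, true, true, true, true, true, true, false, false, true, false, false,
    true, false, false, false, false, false, true, true, false, true, true, false, true, true,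
    true, false, false, false, false, true, false, true, false, false, true, false, false]

/-- The steering word. -/
def s (n : ℕ) : Bool := if n < 42 then stbl.getD n true else n % 2 == 0

/-- The number of letters taken from the second copy before time `n`. -/
def J (t : ℕ → Bool) (n : ℕ) : ℕ := Nat.count (fun k => t k = false) n

/-- The number of letters taken from the first copy before time `n`. -/
def I (t : ℕ → Bool) (n : ℕ) : ℕ := Nat.count (fun k => t k = true) n

lemma I_add_J (t : ℕ → Bool) (n : ℕ) : I t n + J t n = n := by
  induction n with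
  | zero => simp [I, J]
  | succ n ih =>
    unfold I J at *
    rw [Nat.count_succ, Nat.count_succ]
    cases h : t n <;> simp <;> omega

/-- Local form of the steering condition. -/
def Loc (t : ℕ → Bool) : Prop :=
  ∀ n, (t n = true → x n = x (I t n)) ∧ (t n = false → x n = x (J t n))

lemma loc_of_steering {t : ℕ → Bool} (h : IsSteering x t) : Loc t := by
  intro n
  constructor
  · intro hn
    have h1 := h.2.2.1 (Nat.count (fun k => t k = true) n)
    rw [Nat.nth_count hn] at h1
    exact h1
  · intro hn
    have h1 := h.2.2.2 (Nat.count (fun k => t k = false) n)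
    rw [Nat.nth_count hn] at h1
    exact h1

lemma steering_of_loc {t : ℕ → Bool} (h1 : {n | t n = true}.Infinite)
    (h2 : {n | t n = false}.Infinite) (h : Loc t) : IsSteering x t := by
  refine ⟨h1, h2, fun k => ?_, fun k => ?_⟩
  · have h3 : t (Nat.nth (fun n => t n = true) k) = true := Nat.nth_mem_of_infinite h1 k
    have h4 := (h _).1 h3
    rw [h4]
    unfold I
    rw [Nat.count_nth_of_infinite h1]
  · have h3 : t (Nat.nth (fun n => t n = false) k) = false := Nat.nth_mem_of_infinite h2 k
    have h4 := (h _).2 h3
    rw [h4]
    unfold J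
    rw [Nat.count_nth_of_infinite h2]

lemma x_low {n : ℕ} (h : n < 42) : x n = tbl.getD n 0 := by
  rw [x, if_pos h]

lemma x_even (j : ℕ) (h : 20 ≤ j) : x (2 * j + 2) = x (j + 2) := by
  rw [x, if_neg (by omega), if_pos (by omega)]
  congr 1; omega

lemma x_odd (j : ℕ) (h : 20 ≤ j) : x (2 * j + 3) = x j := by
  rw [x, if_neg (by omega), if_neg (by omega)]
  congr 1; omega

lemma x_tbl {n : ℕ} (h : n < 46) : x n = tbl.getD n 0 := by
  by_cases h1 : n < 42
  · exact x_low h1
  · have : n = 42 ∨ n = 43 ∨ n = 44 ∨ n = 45 := by omega
    rcases this with rfl | rfl | rfl | rfl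
    · rw [x_even 20 (by norm_num), x_low (by norm_num)]; decide
    · rw [x_odd 20 (by norm_num), x_low (by norm_num)]; decide
    · rw [x_even 21 (by norm_num), x_low (by norm_num)]; decide
    · rw [x_odd 21 (by norm_num), x_low (by norm_num)]; decide

lemma tbl_spaced : ∀ n < 42, 14 ≤ n → ∀ d < 4, tbl.getD (n + d + 1) 0 ≠ tbl.getD n 0 := by
  decide +kernel

/-- From position 14 on, any five consecutive letters are distinct. -/
lemma spaced : ∀ n, 14 ≤ n → ∀ d, 1 ≤ d → d ≤ 4 → x (n + d) ≠ x n := by
  intro n
  induction n using Nat.strong_induction_on with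
  | _ n ih =>
    intro hn d hd1 hd4
    by_cases h : n < 42
    · rw [x_tbl (by omega), x_low h]
      have := tbl_spaced n h hn (d - 1) (by omega)
      rwa [show n + (d - 1) + 1 = n + d by omega] at this
    · -- pairwise distinctness in the parent window
      have key : ∀ j, 20 ≤ j → j < n → ∀ a b, a ≤ 4 → b ≤ 4 → a ≠ b → j + 4 < n →
          x (j + a) ≠ x (j + b) := by
        intro j hj hjn a b ha hb hab hj4
        rcases Nat.lt_or_gt_of_ne hab with h1 | h1
        · have := ih (j + a) (by omega) (by omega) (b - a) (by omega) (by omega)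
          rw [show j + a + (b - a) = j + b by omega] at this
          exact this.symm
        · have := ih (j + b) (by omega) (by omega) (a - b) (by omega) (by omega)
          rw [show j + b + (a - b) = j + a by omega] at this
          exact this
      rcases Nat.even_or_odd' n with ⟨m, rfl | rfl⟩
      · obtain ⟨j, rfl⟩ : ∃ j, m = j + 1 := ⟨m - 1, by omega⟩
        have hj : 20 ≤ j := by omega
        have e0 : x (2 * (j + 1)) = x (j + 2) := x_even j hj
        rw [e0]
        have hd : d = 1 ∨ d = 2 ∨ d = 3 ∨ d = 4 := by omega
        rcases hd with rfl | rfl | rfl | rfl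
        · rw [show 2 * (j + 1) + 1 = 2 * j + 3 by ring, x_odd j hj]
          exact key j hj (by omega) 0 2 (by omega) (by omega) (by omega) (by omega)
        · rw [show 2 * (j + 1) + 2 = 2 * (j + 1) + 2 by ring, x_even (j + 1) (by omega)]
          exact key j hj (by omega) 3 2 (by omega) (by omega) (by omega) (by omega)
        · rw [show 2 * (j + 1) + 3 = 2 * (j + 1) + 3 by ring, x_odd (j + 1) (by omega)]
          exact key j hj (by omega) 1 2 (by omega) (by omega) (by omega) (by omega)
        · rw [show 2 * (j + 1) + 4 = 2 * (j + 2) + 2 by ring, x_even (j + 2) (by omega)]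
          exact key j hj (by omega) 4 2 (by omega) (by omega) (by omega) (by omega)
      · obtain ⟨j, rfl⟩ : ∃ j, m = j + 1 := ⟨m - 1, by omega⟩
        have hj : 20 ≤ j := by omega
        have e0 : x (2 * (j + 1) + 1) = x j := by
          rw [show 2 * (j + 1) + 1 = 2 * j + 3 by ring, x_odd j hj]
        rw [e0]
        have hd : d = 1 ∨ d = 2 ∨ d = 3 ∨ d = 4 := by omega
        rcases hd with rfl | rfl | rfl | rfl
        · rw [show 2 * (j + 1) + 1 + 1 = 2 * (j + 1) + 2 by ring, x_even (j + 1) (by omega)]
          exact key j hj (by omega) 3 0 (by omega) (by omega) (by omega) (by omega)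
        · rw [show 2 * (j + 1) + 1 + 2 = 2 * (j + 1) + 3 by ring, x_odd (j + 1) (by omega)]
          exact key j hj (by omega) 1 0 (by omega) (by omega) (by omega) (by omega)
        · rw [show 2 * (j + 1) + 1 + 3 = 2 * (j + 2) + 2 by ring, x_even (j + 2) (by omega)]
          exact key j hj (by omega) 4 0 (by omega) (by omega) (by omega) (by omega)
        · rw [show 2 * (j + 1) + 1 + 4 = 2 * (j + 2) + 3 by ring, x_odd (j + 2) (by omega)]
          exact key j hj (by omega) 2 0 (by omega) (by omega) (by omega) (by omega)

lemma s_even (j : ℕ) (h : 20 ≤ j) : s (2 * j + 2) = true := by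
  unfold s; rw [if_neg (by omega)]; simp

lemma s_odd (j : ℕ) (h : 20 ≤ j) : s (2 * j + 3) = false := by
  unfold s; rw [if_neg (by omega)]; simp

lemma J42 : J s 42 = 20 := by decide +kernel

lemma J_even : ∀ j, 20 ≤ j → J s (2 * j + 2) = j := by
  intro j hj
  induction j, hj using Nat.le_induction with
  | base => exact J42
  | succ j hj ih =>
    unfold J at *
    rw [show 2 * (j + 1) + 2 = (2 * j + 2 + 1) + 1 by ring, Nat.count_succ, Nat.count_succ, ih,
      show 2 * j + 2 + 1 = 2 * j + 3 by ring]
    simp [s_even j hj, s_odd j hj]

lemma J_odd (j : ℕ) (hj : 20 ≤ j) : J s (2 * j + 3) = j := by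
  have := J_even j hj
  unfold J at *
  rw [show 2 * j + 3 = (2 * j + 2) + 1 by ring, Nat.count_succ, this]
  simp [s_even j hj]

lemma I_even (j : ℕ) (hj : 20 ≤ j) : I s (2 * j + 2) = j + 2 := by
  have h1 := I_add_J s (2 * j + 2)
  rw [J_even j hj] at h1; omega

lemma I_odd (j : ℕ) (hj : 20 ≤ j) : I s (2 * j + 3) = j + 3 := by
  have h1 := I_add_J s (2 * j + 3)
  rw [J_odd j hj] at h1; omega

lemma low_loc : ∀ n < 42, (s n = true → tbl.getD n 0 = tbl.getD (I s n) 0) ∧
    (s n = false → tbl.getD n 0 = tbl.getD (J s n) 0) := by
  decide +kernel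

lemma low_ne : ∀ n < 42, 11 ≤ n → tbl.getD (I s n) 0 ≠ tbl.getD (J s n) 0 := by
  decide +kernel

lemma big_cases {n : ℕ} (h : ¬ n < 42) : ∃ j, 20 ≤ j ∧ (n = 2 * j + 2 ∨ n = 2 * j + 3) := by
  refine ⟨(n - 2) / 2, by omega, by omega⟩

lemma s_loc : Loc s := by
  intro n
  by_cases h : n < 42
  · have h1 := I_add_J s n
    rw [x_low h, x_low (show I s n < 42 by omega), x_low (show J s n < 42 by omega)]
    exact low_loc n h
  · obtain ⟨j, hj, rfl | rfl⟩ := big_cases h
    · rw [s_even j hj, I_even j hj, x_even j hj]
      simp
    · rw [s_odd j hj, J_odd j hj, x_odd j hj]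
      simp

lemma s_ne {n : ℕ} (h11 : 11 ≤ n) : x (I s n) ≠ x (J s n) := by
  by_cases h : n < 42
  · have h1 := I_add_J s n
    rw [x_low (show I s n < 42 by omega), x_low (show J s n < 42 by omega)]
    exact low_ne n h h11
  · obtain ⟨j, hj, rfl | rfl⟩ := big_cases h
    · rw [I_even j hj, J_even j hj]
      exact spaced j (by omega) 2 (by omega) (by omega)
    · rw [I_odd j hj, J_odd j hj]
      exact spaced j (by omega) 3 (by omega) (by omega)

lemma s_steering : IsSteering x s := by
  refine steering_of_loc ?_ ?_ s_loc
  · rw [← Nat.frequently_atTop_iff_infinite, Filter.frequently_atTop]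
    intro a
    exact ⟨2 * (a + 20) + 2, by omega, s_even _ (by omega)⟩
  · rw [← Nat.frequently_atTop_iff_infinite, Filter.frequently_atTop]
    intro a
    exact ⟨2 * (a + 20) + 3, by omega, s_odd _ (by omega)⟩

lemma count_congr {t t' : ℕ → Bool} {n : ℕ} (h : ∀ k < n, t k = t' k) :
    I t n = I t' n ∧ J t n = J t' n := by
  induction n with
  | zero => simp [I, J]
  | succ n ih =>
    have h1 := ih (fun k hk => h k (by omega))
    have h2 := h n (by omega)
    unfold I J at *
    rw [Nat.count_succ, Nat.count_succ, Nat.count_succ, Nat.count_succ, h1.1, h1.2, h2]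
    exact ⟨rfl, rfl⟩

lemma tbl_zero : ∀ n < 14, 1 ≤ n → tbl.getD n 0 = tbl.getD 0 0 → n = 10 ∨ n = 12 := by
  decide

lemma s_low : ∀ n < 10, s n = true := by decide

/-- The start of the second copy is forced. -/
lemma start {t : ℕ → Bool} (h0 : t 0 = true) (ht : IsSteering x t) :
    (∀ k < 10, t k = true) ∧ t 10 = false := by
  have hloc := loc_of_steering ht
  have hex : ∃ n, t n = false := ht.2.1.nonempty
  classical
  set m := Nat.find hex with hm
  have hmf : t m = false := Nat.find_spec hex
  have hlt : ∀ k < m, t k = true := by
    intro k hk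
    have := Nat.find_min hex hk
    simpa using this
  have hm1 : 1 ≤ m := by
    rcases Nat.eq_zero_or_pos m with h | h
    · rw [h, h0] at hmf; exact absurd hmf (by decide)
    · exact h
  have hJ0 : J t m = 0 := by
    have : ∀ r ≤ m, J t r = 0 := by
      intro r hr
      induction r with
      | zero => simp [J]
      | succ r ih =>
        have h1 := ih (by omega)
        unfold J at *
        rw [Nat.count_succ, h1, if_neg (by rw [hlt r (by omega)]; decide)]
    exact this m le_rfl
  -- the counts at time `m + r` if the second copy is read from `m` to `m + r - 1`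
  have hrun : ∀ r, (∀ k < r, t (m + k) = false) → J t (m + r) = r ∧ I t (m + r) = m := by
    intro r hr
    have h1 : J t (m + r) = r := by
      induction r with
      | zero => exact hJ0
      | succ r ih =>
        have h2 := ih (fun k hk => hr k (by omega))
        unfold J at *
        rw [← Nat.add_assoc, Nat.count_succ, h2, if_pos (hr r (by omega))]
    have h2 := I_add_J t (m + r)
    exact ⟨h1, by omega⟩
  have hxm : x m = x 0 := by
    have := (hloc m).2 hmf
    rwa [hJ0] at this
  -- one step: if the letter at time `m + r` is not the letter at `m`, it is read from copy 2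
  have hstep : ∀ r, (∀ k < r, t (m + k) = false) → x (m + r) ≠ x m →
      t (m + r) = false ∧ x (m + r) = x r := by
    intro r hr hne
    obtain ⟨h1, h2⟩ := hrun r hr
    have hl := hloc (m + r)
    rw [h1, h2] at hl
    cases hv : t (m + r) with
    | true => exact absurd (hl.1 hv) hne
    | false => exact ⟨rfl, hl.2 hv⟩
  have hm10 : m = 10 := by
    by_contra hne
    by_cases hbig : 14 ≤ m
    · -- the letters at `m, ..., m + 4` are distinct, but the prefix repeats a letter
      have s1 := hstep 1 (fun k hk => by
        rw [show k = 0 by omega]; exact hmf) (spaced m hbig 1 (by omega) (by omega))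
      have hf2 : ∀ k < 2, t (m + k) = false := by
        intro k hk
        have : k = 0 ∨ k = 1 := by omega
        rcases this with rfl | rfl
        · exact hmf
        · exact s1.1
      have s2 := hstep 2 hf2 (spaced m hbig 2 (by omega) (by omega))
      have hf3 : ∀ k < 3, t (m + k) = false := by
        intro k hk
        rcases Nat.lt_or_ge k 2 with h | h
        · exact hf2 k h
        · rw [show k = 2 by omega]; exact s2.1
      have s3 := hstep 3 hf3 (spaced m hbig 3 (by omega) (by omega))
      have hf4 : ∀ k < 4, t (m + k) = false := by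
        intro k hk
        rcases Nat.lt_or_ge k 3 with h | h
        · exact hf3 k h
        · rw [show k = 3 by omega]; exact s3.1
      have s4 := hstep 4 hf4 (spaced m hbig 4 (by omega) (by omega))
      have h24 : x 2 = x 4 := by rw [x_low (by norm_num), x_low (by norm_num)]; decide
      have h5 := spaced (m + 2) (by omega) 2 (by omega) (by omega)
      rw [show m + 2 + 2 = m + 4 by ring] at h5
      exact h5 (by rw [s4.2, s2.2, h24])
    · rw [x_low (by omega), x_low (by omega)] at hxm
      have h12 := tbl_zero m (by omega) hm1 hxm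
      rcases h12 with h | h
      · exact hne h
      · have s1 := hstep 1 (fun k hk => by
          rw [show k = 0 by omega]; exact hmf) (by
            rw [h, x_low (by norm_num), x_low (by norm_num)]; decide)
        have h6 := s1.2
        rw [h, x_low (by norm_num), x_low (by norm_num)] at h6
        exact absurd h6 (by decide)
  rw [hm10] at hmf hlt
  exact ⟨hlt, hmf⟩

lemma unique {t : ℕ → Bool} (h0 : t 0 = true) (ht : IsSteering x t) : t = s := by
  have hloc := loc_of_steering ht
  obtain ⟨hst1, hst2⟩ := start h0 ht
  funext n
  induction n using Nat.strong_induction_on with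
  | _ n ih =>
    rcases Nat.lt_trichotomy n 10 with h | h | h
    · rw [hst1 n h, s_low n h]
    · subst h
      rw [hst2]
      decide
    · obtain ⟨hI, hJ⟩ := count_congr ih
      have hl := hloc n
      have hs := s_loc n
      have hne := s_ne (show 11 ≤ n by omega)
      rw [hI, hJ] at hl
      cases h1 : t n <;> cases h2 : s n
      · rfl
      · exact absurd ((hs.1 h2).symm.trans (hl.2 h1)) hne
      · exact absurd ((hl.1 h1).symm.trans (hs.2 h2)) hne
      · rfl

/-- There is an infinite word over a 9-letter alphabet that is self-shuffling and admits a unique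
steering word (normalised so that its first letter is `true`). -/
theorem result : ∃ x : ℕ → Fin 9, ∃! s : ℕ → Bool, s 0 = true ∧ IsSteering x s :=
  ⟨x, s, ⟨by decide, s_steering⟩, fun _ ht => unique ht.1 ht.2⟩

end Pool.Agent.Results.MP_814ec7_co.UniqueSteering
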